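import Pool.Agent.Helper3.GT.Link
import Pool.Agent.Helper13.GT.GeoU

/-!
# The local conditions for the quotients of the links
-/

set_option autoImplicit false

namespace Pool.Agent.Helper3.GT

open Relation Pool.Agent.Helper3.FJ Pool.Agent.Helper3.FJ.Cpx Pool.Agent.Helper13.GT

section

variable {V : Type} {X : Cpx V} {ℓ : V → V → ℝ} {τ : V → Finset ℕ} {N : ℕ} {R : Type} [Group R]
  [MulAction R V]

/-- Lifting a step of a walk in a link. -/
theorem lift_step (hA : ActsC R X ℓ τ) (hP : Pe X ℓ τ) {v z : V} {u' : QV R V} (h : X.adj v z)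
    (ht : (quoC hA hP).tri (qv v) (qv z) u') : ∃ z', X.tri v z z' ∧ qv z' = u' := by
  obtain ⟨x, a, b, h1, h2, h3, h4⟩ := ht
  obtain ⟨g, rfl⟩ := (qv_eq R).1 h2
  have h5 := hA.acts.2 g _ _ _ h1
  obtain ⟨s, h6, h7⟩ := no_bigon hA hP (X.tri_adj _ _ _ h5) h ((qv_smul _ _).trans h3)
  refine ⟨s • g • b, ?_, ?_⟩
  · have h8 := hA.acts.2 s _ _ _ h5
    rwa [h6, h7] at h8
  · rw [qv_smul, qv_smul, h4]

/-- Lifting a walk in a link. -/
theorem exists_lift_walk (hA : ActsC R X ℓ τ) (hP : Pe X ℓ τ) {v z₀ : V} (h₀ : X.adj v z₀)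
    {y : ℕ → QV R V} (hy : qv z₀ = y 0) : ∀ n, (∀ i < n, (quoC hA hP).tri (qv v) (y i) (y (i + 1))) →
      ∃ z : ℕ → V, (∀ i ≤ n, qv (z i) = y i) ∧ (∀ i ≤ n, X.adj v (z i)) ∧
        ∀ i < n, X.tri v (z i) (z (i + 1)) := by
  intro n
  induction n with
  | zero =>
    intro _
    refine ⟨fun _ => z₀, fun i hi => ?_, fun _ _ => h₀, fun i hi => absurd hi (by omega)⟩
    obtain rfl : i = 0 := by omega
    exact hy
  | succ n ih =>
    intro h
    obtain ⟨z, h1, h2, h3⟩ := ih fun i hi => h i (by omega)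
    have h4 := h n (by omega)
    rw [← h1 n le_rfl] at h4
    obtain ⟨w, h5, h6⟩ := lift_step hA hP (h2 n le_rfl) h4
    refine ⟨fun i => if i ≤ n then z i else w, fun i hi => ?_, fun i hi => ?_, fun i hi => ?_⟩
    · beta_reduce
      split_ifs with h7
      · exact h1 i h7
      · rw [h6]
        congr 1
        omega
    · beta_reduce
      split_ifs with h7
      · exact h2 i h7
      · exact X.adj_symm _ _ (adj3 h5)
    · beta_reduce
      by_cases h7 : i + 1 ≤ n
      · rw [if_pos (by omega), if_pos h7]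
        exact h3 i (by omega)
      · rw [if_pos (by omega), if_neg h7]
        obtain rfl : i = n := by omega
        exact h5

/-- The fixed directions are convex. -/
theorem conv_up (hA : X.Acts R) (hI : ∀ (g : R) u v, ℓ (g • u) (g • v) = ℓ u v)
    (hs : ∀ u v, ℓ u v = ℓ v u) (hL : X.LinkCond ℓ)
    (rigid : ∀ x y, X.adj x y → Fx R x y → ∀ r : R, r • x = x → r • y = y) {v : V} {n : ℕ}
    {z : ℕ → V} (h1 : ∀ i ≤ n, X.adj v (z i)) (h2 : ∀ i < n, X.tri v (z i) (z (i + 1)))
    (h3 : ∀ i, i + 1 < n → z i ≠ z (i + 2))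
    (h4 : ∑ i ∈ Finset.range n, ang ℓ v (z i) (z (i + 1)) < Real.pi) (h5 : Fx R v (z 0))
    (h6 : Fx R v (z n)) : ∀ i ≤ n, Fx R v (z i) := by
  classical
  intro i₁ hi₁
  by_contra hcon
  have h5' := h5
  obtain ⟨ρ, hρ1, hρv, -⟩ := h5'
  -- the fixed vertices next to `z i₁`
  obtain ⟨j, hj, hj1, hj2⟩ : ∃ j, j < i₁ ∧ Fx R v (z j) ∧ ∀ m, j < m → m ≤ i₁ → ¬ Fx R v (z m) := by
    refine ⟨Nat.findGreatest (fun m => Fx R v (z m)) i₁, ?_, ?_, ?_⟩
    · refine lt_of_le_of_ne (Nat.findGreatest_le _) fun h => hcon ?_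
      have := Nat.findGreatest_spec (P := fun m => Fx R v (z m)) (Nat.zero_le i₁) h5
      rw [h] at this
      exact this
    · exact Nat.findGreatest_spec (P := fun m => Fx R v (z m)) (Nat.zero_le i₁) h5
    · intro m hm1 hm2
      exact Nat.findGreatest_is_greatest hm1 hm2
  have hex : ∃ k, i₁ < k ∧ Fx R v (z k) := ⟨n, lt_of_le_of_ne hi₁ fun h => hcon (h ▸ h6), h6⟩
  obtain ⟨k, hk, hk1, hkn, hk2⟩ : ∃ k, i₁ < k ∧ Fx R v (z k) ∧ k ≤ n ∧
      ∀ m, i₁ < m → m < k → ¬ Fx R v (z m) := by
    refine ⟨Nat.find hex, (Nat.find_spec hex).1, (Nat.find_spec hex).2, ?_, ?_⟩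
    · exact Nat.find_le ⟨lt_of_le_of_ne hi₁ fun h => hcon (h ▸ h6), h6⟩
    · intro m hm1 hm2 hm3
      exact Nat.find_min hex hm2 ⟨hm1, hm3⟩
  have hnf : ∀ m, j < m → m < k → ¬ Fx R v (z m) := by
    intro m hm1 hm2
    rcases Nat.lt_or_ge i₁ m with h | h
    · exact hk2 m h hm2
    · exact hj2 m hm1 h
  have hρj : ρ • z j = z j := rigid _ _ (h1 j (by omega)) hj1 ρ hρv
  have hρk : ρ • z k = z k := rigid _ _ (h1 k hkn) hk1 ρ hρv
  obtain ⟨d, rfl⟩ : ∃ d, k = j + d := ⟨k - j, by omega⟩
  have hd : 2 ≤ d := by omega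
  -- the closed walk
  have hc1 : ∀ a, a ≤ d → (if a ≤ d then z (j + a) else ρ • z (j + 2 * d - a)) = z (j + a) :=
    fun a ha => if_pos ha
  have hc2 : ∀ a, a ≤ d → (if d + a ≤ d then z (j + (d + a)) else ρ • z (j + 2 * d - (d + a))) =
      ρ • z (j + (d - a)) := by
    intro a ha
    rcases Nat.eq_zero_or_pos a with rfl | h0
    · rw [add_zero, if_pos le_rfl, Nat.sub_zero, hρk]
    · rw [if_neg (by omega), show j + 2 * d - (d + a) = j + (d - a) by omega]
  have h7 := nb_closed hL (v := v) (2 * d)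
    (fun a => if a ≤ d then z (j + a) else ρ • z (j + 2 * d - a)) (by omega) ?_ ?_ ?_
  · have h8 : ∑ a ∈ Finset.range (2 * d), ang ℓ v
        (if a ≤ d then z (j + a) else ρ • z (j + 2 * d - a))
        (if a + 1 ≤ d then z (j + (a + 1)) else ρ • z (j + 2 * d - (a + 1))) =
        2 * ∑ a ∈ Finset.range d, ang ℓ v (z (j + a)) (z (j + a + 1)) := by
      rw [two_mul d, Finset.sum_range_add, two_mul]
      congr 1
      · refine Finset.sum_congr rfl fun a ha => ?_
        rw [Finset.mem_range] at ha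
        rw [if_pos (by omega), if_pos (by omega)]
        rfl
      · refine Eq.trans ?_
          (Finset.sum_range_reflect (fun a => ang ℓ v (z (j + a)) (z (j + a + 1))) d)
        refine Finset.sum_congr rfl fun a ha => ?_
        rw [Finset.mem_range] at ha
        have e1 : d - 1 - a + 1 = d - a := by omega
        have e2 := hc2 a (by omega)
        have e3 := hc2 (a + 1) (by omega)
        rw [two_mul] at e2 e3
        beta_reduce
        rw [e2, show d + a + 1 = d + (a + 1) by ring, e3, add_assoc, e1,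
          show d - (a + 1) = d - 1 - a by omega]
        have e4 : ang ℓ v (ρ • z (j + (d - a))) (ρ • z (j + (d - 1 - a))) =
            ang ℓ (ρ • v) (ρ • z (j + (d - a))) (ρ • z (j + (d - 1 - a))) := by rw [hρv]
        rw [e4, ang_smul' hI, ang_comm hs]
    have h9 : ∑ a ∈ Finset.range d, ang ℓ v (z (j + a)) (z (j + a + 1)) ≤
        ∑ i ∈ Finset.range n, ang ℓ v (z i) (z (i + 1)) := by
      have h10 : ∑ a ∈ Finset.range d, ang ℓ v (z (j + a)) (z (j + a + 1)) =
          ∑ a ∈ Finset.Ico j (j + d), ang ℓ v (z a) (z (a + 1)) := by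
        rw [Finset.sum_Ico_eq_sum_range, Nat.add_sub_cancel_left]
      rw [h10]
      refine Finset.sum_le_sum_of_subset_of_nonneg (fun a ha => ?_) fun a _ _ => ang_nonneg _ _ _
      rw [Finset.mem_Ico] at ha
      rw [Finset.mem_range]
      omega
    have h11 := h7.trans_eq h8
    linarith
  · intro a ha
    beta_reduce
    rcases Nat.lt_or_ge a d with h8 | h8
    · rw [hc1 a h8.le, hc1 (a + 1) h8]
      exact h2 _ (by omega)
    · obtain ⟨b, rfl⟩ : ∃ b, a = d + b := ⟨a - d, by omega⟩
      rw [hc2 b (by omega), show d + b + 1 = d + (b + 1) by ring, hc2 (b + 1) (by omega)]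
      have h9 := hA.2 ρ _ _ _ (h2 (j + (d - (b + 1))) (by omega))
      rw [hρv, show j + (d - (b + 1)) + 1 = j + (d - b) by omega] at h9
      exact X.tri_flip _ _ _ (X.tri_rot _ _ _ (X.tri_rot _ _ _ h9))
  · intro a ha
    beta_reduce
    rcases Nat.lt_or_ge (a + 1) d with h8 | h8
    · rw [hc1 a (by omega), hc1 (a + 2) (by omega)]
      exact h3 _ (by omega)
    · rcases Nat.lt_or_ge a d with h9 | h9
      · have h10 : a + 2 = d + 1 := by omega
        rw [hc1 a h9.le, h10, hc2 1 (by omega)]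
        intro h11
        refine hnf (j + a) (by omega) (by omega) ⟨ρ, hρ1, hρv, ?_⟩
        rw [show d - 1 = a by omega] at h11
        exact h11.symm
      · obtain ⟨b, rfl⟩ : ∃ b, a = d + b := ⟨a - d, by omega⟩
        rw [hc2 b (by omega), show d + b + 2 = d + (b + 2) by ring, hc2 (b + 2) (by omega)]
        intro h11
        have h12 := smul_left_cancel ρ h11
        refine h3 (j + (d - (b + 2))) (by omega) ?_
        rw [show j + (d - (b + 2)) + 2 = j + (d - b) by omega]
        exact h12.symm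
  · beta_reduce
    have h8 := hc2 d le_rfl
    rw [← two_mul, Nat.sub_self, add_zero, hρj] at h8
    rw [h8, if_pos (Nat.zero_le _), add_zero]

/-- The local conditions. -/
theorem loc (hN : NiceG X ℓ τ N R) : Loc hN := by
  refine ⟨?_, ?_, ?_⟩
  · refine linkQ hN.acts hN.iso hN.link (fun u v w h => ?_) hN.rigid hN.far
    have := hN.big u v w h
    linarith [Real.pi_pos]
  · intro a b c d h1 h2 h3
    have ac : X.adj a c := X.adj_symm _ _ (adj3 h1)
    have ad : X.adj a d := X.adj_symm _ _ (adj3 h2)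
    have ab : X.adj a b := X.tri_adj _ _ _ h1
    obtain ⟨r, h4, h5⟩ := no_bigon hN.toActsC hN.toPe ac ad h3
    by_cases hc : Fx R a c
    · exact ⟨1, one_smul _ _, one_smul _ _, by
        rw [one_smul, ← h5]
        exact (hN.rigid a c ac hc r h4).symm⟩
    · by_cases hb : Fx R a b
      · exact ⟨r, h4, hN.rigid a b ab hb r h4, h5⟩
      · have h6 : r = 1 := by
          refine hN.far a r h4 2 ?_ (fun i => if i = 0 then c else if i = 1 then b else d) ?_ ?_ ?_
          · have h7 := hN.big _ _ _ h1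
            by_contra h8
            push Not at h8
            have h9 : (N : ℝ) ≤ 1 := by
              have : N ≤ 1 := by omega
              exact_mod_cast this
            have h10 : ang ℓ a b c ≤ Real.pi := Real.arccos_le_pi _
            nlinarith [ang_nonneg (ℓ := ℓ) a b c, Real.pi_pos]
          · intro i hi
            have h8 : i = 0 ∨ i = 1 := by omega
            rcases h8 with rfl | rfl
            · simp only [if_true, zero_add, one_ne_zero, if_false]
              exact X.tri_flip _ _ _ (X.tri_rot _ _ _ (X.tri_rot _ _ _ h1))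
            · simp only [one_ne_zero, if_false, if_true, show (1 + 1 : ℕ) ≠ 0 by omega,
                show (1 + 1 : ℕ) ≠ 1 by omega]
              exact h2
          · intro i _
            beta_reduce
            split_ifs
            · exact hc
            · exact hb
            · intro h8
              rw [← h5] at h8
              exact hc (Fx.conj h4 h8)
          · simp only [if_true, show (2 : ℕ) ≠ 0 by omega, show (2 : ℕ) ≠ 1 by omega, if_false]
            exact h5.symm
        refine ⟨1, one_smul _ _, one_smul _ _, ?_⟩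
        rw [one_smul, ← h5, h6, one_smul]
  · intro v n y h1 h2 h3 h4 h5
    rcases Nat.eq_zero_or_pos n with rfl | hn
    · intro i hi
      obtain rfl : i = 0 := by omega
      exact h4
    obtain ⟨v, rfl⟩ := Quotient.exists_rep v
    change ∀ i < n, (quoC hN.toActsC hN.toPe).tri (qv v) (y i) (y (i + 1)) at h1
    obtain ⟨z₀, h6, h7⟩ : ∃ z₀, X.adj v z₀ ∧ qv z₀ = y 0 := by
      obtain ⟨x, a, b, g1, g2, g3, g4⟩ := h1 0 hn
      obtain ⟨g, rfl⟩ := (qv_eq R).1 g2
      exact ⟨g • a, hN.acts.1 g _ _ (X.tri_adj _ _ _ g1), (qv_smul _ _).trans g3⟩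
    obtain ⟨z, h8, h9, h10⟩ := exists_lift_walk hN.toActsC hN.toPe h6 h7 n h1
    have h11 := conv_up hN.acts hN.iso hN.met.symm hN.link hN.rigid h9 h10
      (fun i hi h => h2 i hi (by rw [← h8 i (by omega), ← h8 (i + 2) (by omega), h])) (by
        refine lt_of_eq_of_lt (Finset.sum_congr rfl fun i hi => ?_) h3
        rw [Finset.mem_range] at hi
        rw [← ang_lq hN.toActsC hN.toPe (h10 i hi), h8 i (by omega), h8 (i + 1) (by omega)]
        rfl) ?_ ?_
    · intro i hi
      rw [← h8 i hi]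
      exact (fq_iff hN (h9 i hi)).2 (h11 i hi)
    · refine (fq_iff hN (h9 0 (Nat.zero_le _))).1 ?_
      rw [h8 0 (Nat.zero_le _)]
      exact h4
    · refine (fq_iff hN (h9 n le_rfl)).1 ?_
      rw [h8 n le_rfl]
      exact h5

end

end Pool.Agent.Helper3.GT
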