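import Pool.Agent.Helper3.GT.Walk

/-!
# The link condition for quotients of links
-/

set_option autoImplicit false

namespace Pool.Agent.Helper3.GT

open Relation Pool.Agent.Helper3.FJ Pool.Agent.Helper3.FJ.Cpx Pool.Agent.Helper13.GT

section

variable {V : Type} {X : Cpx V} {ℓ : V → V → ℝ} {R : Type} [Group R] [MulAction R V]

theorem ang_smul' (hI : ∀ (g : R) u v, ℓ (g • u) (g • v) = ℓ u v) (g : R) (u v w : V) :
    ang ℓ (g • u) (g • v) (g • w) = ang ℓ u v w := by
  unfold ang
  rw [hI, hI, hI]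

/-- Partial products. -/
def gp {n : ℕ} (r : ZMod (n + 3) → R) : ℕ → R
  | 0 => 1
  | k + 1 => gp r k * r (k : ZMod (n + 3))

theorem gp_fix {n : ℕ} {r : ZMod (n + 3) → R} {v : V} (hr : ∀ i, r i • v = v) (k : ℕ) :
    gp r k • v = v := by
  induction k with
  | zero => exact one_smul _ _
  | succ k ih => rw [gp, mul_smul, hr, ih]

theorem Fx.conj {v y : V} {g : R} (hg : g • v = v) (h : Fx R v (g • y)) : Fx R v y := by
  obtain ⟨s, h1, h2, h3⟩ := h
  refine ⟨g⁻¹ * s * g, fun h4 => h1 ?_, ?_, ?_⟩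
  · have : s = g * (g⁻¹ * s * g) * g⁻¹ := by group
    rw [this, h4]
    group
  · rw [mul_smul, mul_smul, hg, h2, inv_smul_eq_iff, hg]
  · rw [mul_smul, mul_smul, h3, inv_smul_smul]

variable (hA : X.Acts R) (hI : ∀ (g : R) u v, ℓ (g • u) (g • v) = ℓ u v) (hL : X.LinkCond ℓ)

include hA hI hL

/-- Circuits whose lifts are closed. -/
theorem linkQ_closed {v : V} {n : ℕ} {y : ZMod (n + 3) → V} {r : ZMod (n + 3) → R}
    (h1 : ∀ i, r i • v = v) (h2 : ∀ i, X.tri v (y i) (r i • y (i + 1)))
    (h3 : ∀ i j, i ≠ j → ¬ ∃ s : R, s • v = v ∧ s • y i = y j)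
    (h4 : gp r (n + 3) • y 0 = y 0) : 2 * Real.pi ≤ ∑ i, ang ℓ v (y i) (r i • y (i + 1)) := by
  have hstep : ∀ i : ZMod (n + 3), gp r (i + 1).val • y (i + 1) =
      gp r i.val • r i • y (i + 1) := by
    intro i
    rcases val_add_one' i with ⟨h5, h6⟩ | ⟨h5, h6⟩
    · rw [h6, gp, mul_smul, ZMod.natCast_zmod_val]
    · have h7 : gp r (n + 3) = gp r i.val * r i := by
        have h8 : gp r (i.val + 1) = gp r i.val * r i := by
          rw [gp, ZMod.natCast_zmod_val]
        exact (congrArg (gp r) h5).symm.trans h8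
      rw [h6, ZMod.val_zero, gp, one_smul, ← mul_smul, ← h7, h4]
  have h5 := hL v n (fun i => gp r i.val • y i) (fun i j hij => by
    by_contra hne
    refine h3 i j hne ⟨(gp r j.val)⁻¹ * gp r i.val, ?_, ?_⟩
    · rw [mul_smul, gp_fix h1, inv_smul_eq_iff, gp_fix h1]
    · have hij' : gp r i.val • y i = gp r j.val • y j := hij
      rw [mul_smul, hij', inv_smul_smul]) (fun i => by
      beta_reduce
      rw [hstep]
      have := hA.2 (gp r i.val) _ _ _ (h2 i)
      rwa [gp_fix h1] at this)
  refine h5.trans (le_of_eq (Finset.sum_congr rfl fun i _ => ?_))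
  beta_reduce
  rw [hstep]
  conv_lhs => rw [← gp_fix h1 i.val]
  exact ang_smul' hI _ _ _ _

/-- The link condition for the quotients. -/
theorem linkQ {N : ℕ} (big : ∀ u v w, X.tri u v w → 2 * Real.pi < N * ang ℓ u v w)
    (rigid : ∀ x y, X.adj x y → Fx R x y → ∀ r : R, r • x = x → r • y = y)
    (far : ∀ (v : V) (r : R), r • v = v → ∀ n ≤ N, ∀ y : ℕ → V,
      (∀ i < n, X.tri v (y i) (y (i + 1))) → (∀ i ≤ n, ¬ Fx R v (y i)) → y n = r • y 0 → r = 1) :
    LinkQ X ℓ R := by
  intro v n y r h1 h2 h3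
  by_cases hfx : ∃ i, Fx R v (y i)
  · obtain ⟨i₀, hi₀⟩ := hfx
    have h4 := linkQ_closed hA hI hL (v := v) (y := fun i => y (i + i₀)) (r := fun i => r (i + i₀))
      (fun i => h1 _) (fun i => by
        have := h2 (i + i₀)
        rw [show i + 1 + i₀ = i + i₀ + 1 by ring]
        exact this) (fun i j hij => h3 _ _ fun h => hij (add_right_cancel h)) (by
        rw [zero_add]
        exact rigid v (y i₀) (X.tri_adj _ _ _ (h2 i₀)) hi₀ _ (gp_fix (fun i => h1 _) _))
    refine h4.trans (le_of_eq ?_)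
    refine Fintype.sum_equiv (Equiv.addRight i₀) _ _ fun i => ?_
    rw [Equiv.coe_addRight, show i + 1 + i₀ = i + i₀ + 1 by ring]
  · push Not at hfx
    by_cases hg : gp r (n + 3) = 1
    · exact linkQ_closed hA hI hL h1 h2 h3 (by rw [hg, one_smul])
    · -- the circuit is long
      have hN : N < n + 3 := by
        by_contra hcon
        push Not at hcon
        refine hg (far v (gp r (n + 3)) (gp_fix h1 _) (n + 3) hcon
          (fun k => gp r k • y (k : ZMod (n + 3))) (fun k _ => ?_) (fun k _ hk => ?_) ?_)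
        · have h5 := hA.2 (gp r k) _ _ _ (h2 (k : ZMod (n + 3)))
          rw [gp_fix h1, ← mul_smul] at h5
          push_cast
          exact h5
        · exact hfx _ (Fx.conj (gp_fix h1 _) hk)
        · have h5 : ((n + 3 : ℕ) : ZMod (n + 3)) = 0 := ZMod.natCast_self _
          beta_reduce
          rw [h5, Nat.cast_zero, gp, one_smul]
      have h5 : ∀ i : ZMod (n + 3), 2 * Real.pi / N ≤ ang ℓ v (y i) (r i • y (i + 1)) := by
        intro i
        have h6 := big _ _ _ (h2 i)
        have hN0 : (0 : ℝ) < N := by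
          rcases Nat.eq_zero_or_pos N with h0 | h0
          · rw [h0, Nat.cast_zero, zero_mul] at h6
            linarith [Real.pi_pos]
          · exact_mod_cast h0
        rw [div_le_iff₀ hN0]
        linarith [mul_comm (N : ℝ) (ang ℓ v (y i) (r i • y (i + 1)))]
      rcases Nat.eq_zero_or_pos N with h0 | h0
      · have h6 := big _ _ _ (h2 0)
        rw [h0, Nat.cast_zero, zero_mul] at h6
        linarith [Real.pi_pos]
      · have hN0 : (0 : ℝ) < N := by exact_mod_cast h0
        calc 2 * Real.pi = N * (2 * Real.pi / N) := by field_simp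
          _ ≤ ((n + 3 : ℕ) : ℝ) * (2 * Real.pi / N) := by
              refine mul_le_mul_of_nonneg_right (by exact_mod_cast hN.le) ?_
              have := Real.pi_pos
              positivity
          _ = ∑ _i : ZMod (n + 3), 2 * Real.pi / N := by
              rw [Finset.sum_const, Finset.card_univ, ZMod.card, nsmul_eq_mul]
          _ ≤ _ := Finset.sum_le_sum fun i _ => h5 i

end

end Pool.Agent.Helper3.GT
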