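import Pool.Agent.Helper13.GT.Shp

/-!
# Closed walks in links
-/

set_option autoImplicit false

namespace Pool.Agent.Helper3.GT

open Relation Pool.Agent.Helper3.FJ Pool.Agent.Helper3.FJ.Cpx

section

variable {V : Type} {X : Cpx V} {ℓ : V → V → ℝ}

theorem ang_nonneg (u v w : V) : 0 ≤ ang ℓ u v w := Real.arccos_nonneg _

theorem ang_comm (hs : ∀ u v, ℓ u v = ℓ v u) (u v w : V) : ang ℓ u v w = ang ℓ u w v := by
  unfold ang
  rw [hs v w]
  congr 1
  ring

/-- Sums over `ZMod`. -/
theorem sum_zmod (k : ℕ) (F : ℕ → ℝ) :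
    ∑ i : ZMod (k + 3), F i.val = ∑ i ∈ Finset.range (k + 3), F i :=
  Fin.sum_univ_eq_sum_range F (k + 3)

theorem val_add_one' {k : ℕ} (i : ZMod (k + 3)) :
    (i.val + 1 < k + 3 ∧ (i + 1).val = i.val + 1) ∨ (i.val + 1 = k + 3 ∧ i + 1 = 0) := by
  have h := ZMod.val_lt i
  rcases Nat.lt_or_ge (i.val + 1) (k + 3) with h1 | h1
  · refine Or.inl ⟨h1, ?_⟩
    have h2 : i + 1 = ((i.val + 1 : ℕ) : ZMod (k + 3)) := by
      push_cast
      rw [ZMod.natCast_zmod_val]
    rw [h2, ZMod.val_natCast, Nat.mod_eq_of_lt h1]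
  · refine Or.inr ⟨by omega, ?_⟩
    have h2 : i + 1 = ((i.val + 1 : ℕ) : ZMod (k + 3)) := by
      push_cast
      rw [ZMod.natCast_zmod_val]
    rw [h2, show i.val + 1 = k + 3 by omega]
    exact ZMod.natCast_self _

/-- Closed walks without backtracking (except perhaps at their origin) have length at least
`2π`. -/
theorem nb_closed (hL : X.LinkCond ℓ) {v : V} : ∀ (m : ℕ) (c : ℕ → V), 0 < m →
    (∀ i < m, X.tri v (c i) (c (i + 1))) → (∀ i, i + 2 ≤ m → c i ≠ c (i + 2)) → c m = c 0 →
    2 * Real.pi ≤ ∑ i ∈ Finset.range m, ang ℓ v (c i) (c (i + 1)) := by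
  intro m
  induction m using Nat.strong_induction_on with
  | _ m ih =>
    intro c hm h1 h2 h3
    by_cases hinj : ∀ i j, i < m → j < m → c i = c j → i = j
    · obtain ⟨k, rfl⟩ : ∃ k, m = k + 3 := by
        refine ⟨m - 3, ?_⟩
        have n1 : m ≠ 1 := by
          rintro rfl
          have h4 := X.tri_adj _ _ _ (X.tri_rot _ _ _ (h1 0 (by omega)))
          rw [zero_add, h3] at h4
          exact X.adj_irrefl _ h4
        have n2 : m ≠ 2 := by
          rintro rfl
          exact h2 0 le_rfl h3.symm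
        omega
      have h4 := hL v k (fun i => c i.val) (fun i j hij => by
        have := hinj _ _ (ZMod.val_lt i) (ZMod.val_lt j) hij
        exact ZMod.val_injective _ this) (fun i => by
          rcases val_add_one' i with ⟨h5, h6⟩ | ⟨h5, h6⟩
          · beta_reduce
            rw [h6]
            exact h1 _ (ZMod.val_lt i)
          · have h7 := h1 _ (ZMod.val_lt i)
            rw [h5, h3] at h7
            beta_reduce
            rw [h6, ZMod.val_zero]
            exact h7)
      refine h4.trans (le_of_eq ?_)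
      rw [← sum_zmod k fun i => ang ℓ v (c i) (c (i + 1))]
      refine Finset.sum_congr rfl fun i _ => ?_
      rcases val_add_one' i with ⟨h5, h6⟩ | ⟨h5, h6⟩
      · rw [h6]
      · rw [h6, ZMod.val_zero, h5, h3]
    · push Not at hinj
      obtain ⟨i, j, hi, hj, hij, hne⟩ := hinj
      wlog hlt : i < j generalizing i j
      · exact this j i hj hi hij.symm hne.symm (by omega)
      obtain ⟨d, rfl⟩ : ∃ d, j = i + d := ⟨j - i, by omega⟩
      have h4 := ih d (by omega) (fun a => c (i + a)) (by omega)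
        (fun a ha => h1 (i + a) (by omega)) (fun a ha => h2 (i + a) (by omega))
        (by rw [add_zero]; exact hij.symm)
      refine h4.trans ?_
      have h5 : ∑ a ∈ Finset.range d, ang ℓ v (c (i + a)) (c (i + a + 1)) =
          ∑ a ∈ Finset.Ico i (i + d), ang ℓ v (c a) (c (a + 1)) := by
        rw [Finset.sum_Ico_eq_sum_range, Nat.add_sub_cancel_left]
      have h6 : ∑ a ∈ Finset.range d, ang ℓ v (c (i + a)) (c (i + (a + 1))) =
          ∑ a ∈ Finset.Ico i (i + d), ang ℓ v (c a) (c (a + 1)) := h5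
      rw [h6]
      refine Finset.sum_le_sum_of_subset_of_nonneg (fun a ha => ?_) fun a _ _ => ang_nonneg _ _ _
      rw [Finset.mem_Ico] at ha
      rw [Finset.mem_range]
      omega

end

end Pool.Agent.Helper3.GT
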